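import Pool.Agent.H48.V0T.Par
import Pool.Agent.H44.V0F.Evg
import Pool.Agent.H64.GF.Gfr

/-!
# The gradients of the targets on one event

`GfrS`: the relative gradient with several followers, as a statement. `grdT_of`, `t_grdT`: the
gradients of the targets.
-/

set_option autoImplicit false

namespace Pool.V0T

open Finset Real MvPolynomial
open Pool.Agent.H49.Ent Pool.Agent.H32.Dense
open Pool.STK hiding pr2
open Pool.KA Pool.KSAT Pool.K2S Pool.PB Pool.S6C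
open Pool.GEN Pool.CHT Pool.CHX Pool.ISO Pool.LA91 Pool.AVG71 Pool.AVG5 Pool.D2F2 Pool.AVG57
open Pool.RCD Pool.AVG96 Pool.OWN68 Pool.V0F Pool.V0Q
open Pool.AJW (CfB)
open Pool.D2R (WinB gnh hgt hyb chs chs_eq)
open Pool.LV64 (GrdV NrH)

/-- The relative gradient of the place `i`, followers `k, …, i - 1`, any label `GN` near the chart
of the first window. -/
def GfrS : Prop := ∀ D D' r : ℕ, ∃ C : ℕ, 1 ≤ C ∧ ∀ {m J : ℕ} {F : Fam m J} {c : ℕ → Fin m}
    {Dr N M : ℕ} {C₀ a Eb ηm : ℝ} {o η σ : ℕ → ℝ} {lv b : ℕ → ℕ → ℝ} {κ : ℝ}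
    {z : ℕ → ℕ → ℕ} {B : F.Ω → Prop} {g₀ : ℕ → ℕ → ℕ}
    {G : ℕ → PtT F → ℕ → MvPolynomial (Option (Fin m)) ℝ}
    {H : ℕ → LnT F → ℕ → MvPolynomial (Option (Fin m)) ℝ}
    (_ : WinB F c r D Dr N M C₀ a Eb ηm o η σ lv b κ z B g₀ G H)
    {GN : PtT F → MvPolynomial (Option (Fin m)) ℝ} {κN : F.Ω → ℝ}
    {fb jb f jj : ℕ → ℕ} {k i nb n ks q X Y : ℕ} {S b' : ℝ}, k ≤ i → i ≤ r →
    (∀ t ≤ nb, fb t ≤ N) →
    (∀ t < nb, jb t ≤ M ∧ z (fb t) (jb t) = ⌊o (fb (t + 1)) * J⌋₊ - ⌊o (fb t) * J⌋₊ ∧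
      o (fb t) ≤ o (fb (t + 1))) → (nb : ℝ) ≤ 2 ^ Y →
    (∀ t ≤ nb, ∀ l < k, (lv (fb t) l - o (fb t) - (lv (fb nb) l - o (fb nb))) * J ≤ Y ∧
      (lv (fb nb) l - o (fb nb) - (lv (fb t) l - o (fb t))) * J ≤ Y) → f 0 = fb nb →
    Set.InjOn c (Set.Iio (r + 1)) → 1 ≤ n → (∀ t ≤ n, f t ≤ N) →
    (∀ t < n, jj t ≤ M ∧ z (f t) (jj t) = ⌊o (f (t + 1)) * J⌋₊ - ⌊o (f t) * J⌋₊ ∧
      o (f t) ≤ o (f (t + 1))) →
    C₀ * (ηm * J) ≤ Y → 3 ≤ Y → (n : ℝ) ≤ 2 ^ Y → 0 ≤ S → S ≤ b' →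
    (∀ t < n, ∀ l ≤ i, (lv (f (t + 1)) l - lv (f t) l) * J ≤ Y ∧
      (lv (f t) l - lv (f (t + 1)) l) * J ≤ Y) →
    (∀ t < n, b' * ((o (f (t + 1)) - o (f t)) * J) ≤ Y) →
    (∀ t t', t ≤ t' → t' ≤ n → ∀ l < k,
      (lv (f t') l - lv (f t) l) * J ≤ S * ((o (f t') - o (f t)) * J) + Y) →
    (∀ t t', t ≤ t' → t' ≤ n → ∀ l, k ≤ l → l ≤ i →
      b' * ((o (f t') - o (f t)) * J) ≤ (lv (f t') l - lv (f t) l) * J + Y) →
    (∀ y, (GN y).totalDegree ≤ D') → (∀ y, DepC c i (GN y)) →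
    (∀ ω, B ω → ∀ x, NBx c (G (f 0) (ptr F J ω)) (g₀ (f 0)) ⌊o (f 0) * J⌋₊ (F.t ω) i x →
      |eval x (GN (ptr F J ω)) + κN ω - eval x (G (f 0) (ptr F J ω) i)| ≤
        2 ^ Y / 2 ^ g₀ (f 0) i) →
    S * ((o (f n) - o (f 0)) * J) + 3 ≤ q →
    (q : ℝ) + X ≤ b' * ((o (f n) - o (f 0)) * J) + Y → X ≤ q → ks ≤ n →
    (X : ℝ) ≤ (b' - S) * ((o (f ks) - o (f 0)) * J) + Y →
    (∀ ω, B ω → ∀ j < i, (k ≤ j → ∀ t t', t ≤ t' → t' ≤ n → ∀ l, j < l → l ≤ i →
        (lv (f t') j - lv (f t) j) * J ≤ (lv (f t') l - lv (f t) l) * J + Y) →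
      |gnh F c i (g₀ (f 0)) (folN G GN (fb 0) (f n) k i) (G (f n)) ω j| ≤ 2 ^ (C * Y)) ∧
    ∀ ω ν, B ω → B ν → F.t ω = F.t ν → GN (ptr F J ω) = GN (ptr F J ν) →
      (∀ j < k, |hgt F c (folN G GN (fb 0) (f n) k i) ω j -
        hgt F c (folN G GN (fb 0) (f n) k i) ν j| ≤ 2 ^ 2 / 2 ^ (g₀ (f 0) j + q)) →
      (∀ l < k, G (fb 0) (ptr F J ω) l = G (fb 0) (ptr F J ν) l) →
      ((∀ t ≤ ks, ∀ l ≤ i, G (f t) (ptr F J ω) l = G (f t) (ptr F J ν) l) → ∀ j < k,
        |gnh F c i (g₀ (f 0)) (folN G GN (fb 0) (f n) k i) (G (f n)) ω j -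
          gnh F c i (g₀ (f 0)) (folN G GN (fb 0) (f n) k i) (G (f n)) ν j| ≤
            2 ^ (C * Y) / 2 ^ X) ∧
      ((∀ t ≤ n, ∀ l ≤ i, G (f t) (ptr F J ω) l = G (f t) (ptr F J ν) l) →
        (∀ j < k, |gnh F c i (g₀ (f 0)) (folN G GN (fb 0) (f n) k i) (G (f n)) ω j -
          gnh F c i (g₀ (f 0)) (folN G GN (fb 0) (f n) k i) (G (f n)) ν j| ≤
            2 ^ (C * Y) / 2 ^ X) ∧
        |2 ^ (g₀ (f 0) i + q) * (hgt F c (folN G GN (fb 0) (f n) k i) ω i -
            hgt F c (folN G GN (fb 0) (f n) k i) ν i) -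
          ∑ j ∈ range k,
            gnh F c i (g₀ (f 0)) (folN G GN (fb 0) (f n) k i) (G (f n)) ω j *
            (2 ^ (g₀ (f 0) j + q) * (hgt F c (folN G GN (fb 0) (f n) k i) ω j -
              hgt F c (folN G GN (fb 0) (f n) k i) ν j))| ≤ 2 ^ (C * Y) / 2 ^ X)

/-- **The gradients of the targets on one event.** -/
theorem grdT_of (hG : GfrS) (f : ℕ) : GrdTStmt f := by
  intro D D' k hk
  obtain ⟨Cg, hCg, Hg⟩ := hG D D' (k + f)
  refine ⟨Cg, hCg, ?_⟩
  intro s sn Gs b o φ w u y ξ T Λ C κ₀ e lam x' xr xq w₁ vq oq xa m J F c Dr N M C₀ a Eb ηm E ow η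
    σ lv bb κ z A g₀ G H fb fn nb n ks GN HN W Nn hinj hn hks hfb hf hf0 hob how gfb gf stb st hlv
    hC zb zf big hnb hn' hL
  obtain ⟨b1, b2, b3, b4, b5, b6, b7, b8, b9, b10, b11, b12, b13, b14, b15, b16, b17⟩ := Nn.wb
  obtain ⟨h1, h2, h3, h4, h5, h6, h7, h8, h9, h10⟩ := Nn.sm
  obtain ⟨c1, c2, c3, c4, c5, c6, c7, c8, c9, c10, c11, c12⟩ := Nn.sw
  obtain ⟨d1, d2⟩ := Nn.ξu
  have hJ : (0 : ℝ) ≤ J := Nat.cast_nonneg J
  have hs := Nn.s1
  have hu := Nn.u0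
  have hy0 := Nn.y0
  have hx := abs_le.1 Nn.hx
  have hj := abs_le.1 Nn.hj
  have hyu := Nn.yu
  have hyξ := Nn.yξ
  have hus := Nn.us
  obtain ⟨Y, hY⟩ : ∃ Y : ℕ, Y = ⌈1000 * y * (J : ℝ)⌉₊ + 3 := ⟨_, rfl⟩
  have hY1 : 1000 * y * (J : ℝ) + 3 ≤ Y := by
    rw [hY]
    push_cast
    have := Nat.le_ceil (1000 * y * (J : ℝ))
    linarith
  have mj : ∀ {a a' : ℝ}, a ≤ a' → a * J ≤ a' * J := fun h => mul_le_mul_of_nonneg_right h hJ
  have yJ : 10 ≤ y * J := by
    have := mj (show φ ≤ y by linarith)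
    linarith
  have hφY : 1000 * (φ * J) ≤ Y := by
    have := mj (show φ ≤ y by linarith)
    linarith
  have hsY : 1000 * (s * φ * J) ≤ Y := by
    have := mj (show s * φ ≤ y by linarith)
    linarith
  -- monotone windows
  have mb := mono_ch fun k hk => (stb k hk).1
  have mf := mono_ch fun k hk => (st k hk).1
  have rb : ∀ k ≤ nb, b ≤ ow (fb k) ∧ ow (fb k) ≤ w := by
    intro k hk
    have e1 := mb 0 k (Nat.zero_le _) hk
    have e2 := mb k nb hk le_rfl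
    rw [hob] at e1
    rw [← hf0, how] at e2
    exact ⟨e1, e2⟩
  have rf : ∀ k ≤ n, w ≤ ow (fn k) ∧ ow (fn k) ≤ ow (fn n) := by
    intro k hk
    have e1 := mf 0 k (Nat.zero_le _) hk
    have e2 := mf k n hk le_rfl
    rw [how] at e1
    exact ⟨e1, e2⟩
  have hq1 : (u + 500 * y) * J - 1 ≤ (⌊(u + 500 * y) * J⌋₊ : ℝ) := by
    have := Nat.lt_floor_add_one ((u + 500 * y) * (J : ℝ))
    linarith
  have hq2 : (⌊(u + 500 * y) * J⌋₊ : ℝ) ≤ (u + 500 * y) * J :=
    Nat.floor_le (mul_nonneg (by linarith) hJ)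
  have hX2 : (⌊ξ * u * J⌋₊ : ℝ) ≤ ξ * u * J := Nat.floor_le (mul_nonneg d1.le hJ)
  obtain ⟨κN, hκN⟩ := hL.near
  have p2 : (2 : ℝ) ^ (φ * (J : ℝ)) ≤ 2 ^ Y := by
    rw [← Real.rpow_natCast]
    exact Real.rpow_le_rpow_of_exponent_le one_le_two (by
      have : 0 ≤ φ * (J : ℝ) := by positivity
      linarith)
  choose! jb hjb using zb
  choose! jj hjj using zf
  rw [← hY]
  -- one target
  have key := fun (l : ℕ) (hl1 : k ≤ l) (hl2 : l ≤ k + f) =>
    Hg W (GN := fun y => GN y l) (κN := κN l) (fb := fb) (jb := jb) (f := fn) (jj := jj) (k := k)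
      (i := l) (nb := nb) (n := n) (ks := ks) (q := ⌊(u + 500 * y) * J⌋₊)
      (X := ⌊ξ * u * J⌋₊) (Y := Y) (S := 1) (b' := s) hl1 hl2 hfb
      (fun t ht => ⟨(hjb t ht).1, (hjb t ht).2, (stb t ht).1⟩)
      (le_two_pow hnb (by linarith)) (fun t ht l hl => by
        obtain ⟨r1, r2⟩ := rb t ht
        have e0 : ow (fb nb) = w := by rw [← hf0, how]
        rw [hlv _ (hfb t ht) l (by omega), hlv _ (hfb nb le_rfl) l (by omega), e0]
        have e1 := abs_le.1 (Nn.sl l hl _ (gfb t ht) r1 (r2.trans b2))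
        have e2 := mj e1.1
        have e3 := mj e1.2
        constructor <;> linarith) hf0 hinj hn hf
      (fun t ht => ⟨(hjj t ht).1, (hjj t ht).2, (st t ht).1⟩) (by
        have e1 := mj hC
        have e2 : C₀ * (ηm * J) = C₀ * ηm * J := by ring
        rw [e2]
        linarith) (by
        rw [hY]
        omega) (le_two_pow hn' (by linarith)) zero_le_one hs.le (fun t ht l' hl' => by
        obtain ⟨r1, r2⟩ := rf t ht.le
        obtain ⟨r3, r4⟩ := rf (t + 1) (by omega)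
        obtain ⟨r5, r6⟩ := st t ht
        rw [hlv _ (hf t ht.le) l' (by omega), hlv _ (hf (t + 1) (by omega)) l' (by omega)]
        rcases Nat.lt_or_ge l' k with h | h
        · have e1 := abs_le.1 (Nn.sl l' h _ (gf t ht.le) (b1.trans r1) (r2.trans b7))
          have e2 := abs_le.1 (Nn.sl l' h _ (gf (t + 1) (by omega)) (b1.trans r3) (r4.trans b7))
          have e3 := mj (show sn l' (ow (fn (t + 1))) - sn l' (ow (fn t)) ≤ 5 * φ by linarith)
          have e4 := mj (show sn l' (ow (fn t)) - sn l' (ow (fn (t + 1))) ≤ 5 * φ by linarith)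
          constructor <;> linarith
        · have e1 := Nn.stv h (by omega) (gf t ht.le) (b1.trans r1) (r2.trans b7)
          have e2 := Nn.stv h (by omega) (gf (t + 1) (by omega)) (b1.trans r3) (r4.trans b7)
          have e5 : s * (ow (fn (t + 1)) - ow (fn t)) ≤ s * φ :=
            mul_le_mul_of_nonneg_left (by linarith) (by linarith)
          have e6 : 0 ≤ s * (ow (fn (t + 1)) - ow (fn t)) :=
            mul_nonneg (by linarith) (by linarith)
          have e3 := mj (show sn l' (ow (fn (t + 1))) - sn l' (ow (fn t)) ≤ s * φ + 2 * φ by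
            linarith)
          have e4 := mj (show sn l' (ow (fn t)) - sn l' (ow (fn (t + 1))) ≤ 2 * φ by linarith)
          constructor <;> linarith) (fun t ht => by
        obtain ⟨r5, r6⟩ := st t ht
        have e5 : s * (ow (fn (t + 1)) - ow (fn t)) ≤ s * φ :=
          mul_le_mul_of_nonneg_left (by linarith) (by linarith)
        have e6 := mj e5
        have e7 : s * ((ow (fn (t + 1)) - ow (fn t)) * J) =
          s * (ow (fn (t + 1)) - ow (fn t)) * J := by ring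
        rw [e7]
        have : 0 ≤ s * φ * J := by positivity
        linarith) (fun t t' htt ht' l' hl' => by
        obtain ⟨r1, r2⟩ := rf t (htt.trans ht')
        obtain ⟨r3, r4⟩ := rf t' ht'
        rw [hlv _ (hf t (htt.trans ht')) l' (by omega), hlv _ (hf t' ht') l' (by omega)]
        have e1 := abs_le.1 (Nn.sl l' hl' _ (gf t (htt.trans ht')) (b1.trans r1) (r2.trans b7))
        have e2 := abs_le.1 (Nn.sl l' hl' _ (gf t' ht') (b1.trans r3) (r4.trans b7))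
        have e3 := mj (show sn l' (ow (fn t')) - sn l' (ow (fn t)) ≤
          (ow (fn t') - ow (fn t)) + 4 * φ by linarith)
        linarith) (fun t t' htt ht' l' hl' hl'' => by
        obtain ⟨r1, r2⟩ := rf t (htt.trans ht')
        obtain ⟨r3, r4⟩ := rf t' ht'
        rw [hlv _ (hf t (htt.trans ht')) l' (by omega), hlv _ (hf t' ht') l' (by omega)]
        have e1 := Nn.stv hl' (by omega) (gf t (htt.trans ht')) (b1.trans r1) (r2.trans b7)
        have e2 := Nn.stv hl' (by omega) (gf t' ht') (b1.trans r3) (r4.trans b7)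
        have e3 := mj (show s * (ow (fn t') - ow (fn t)) ≤
          sn l' (ow (fn t')) - sn l' (ow (fn t)) + 2 * φ by linarith)
        have e7 : s * ((ow (fn t') - ow (fn t)) * J) = s * (ow (fn t') - ow (fn t)) * J := by
          ring
        rw [e7]
        linarith) (hL.deg l hl1 hl2).1 (hL.dep l hl1 hl2).1 (fun ω hω x hx => by
        rw [how] at hx
        exact (hκN l hl1 hl2 ω hω x hx).trans
          (div_le_div_of_nonneg_right p2 (by positivity))) (by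
        rw [how]
        have e1 := mj (show ow (fn n) - w + φ ≤ u + 500 * y by linarith)
        linarith) (by
        rw [how]
        have e1 := mj (show (u + 500 * y) + ξ * u ≤ s * (ow (fn n) - w) + 600 * y by linarith)
        have e7 : s * ((ow (fn n) - w) * J) = s * (ow (fn n) - w) * J := by ring
        rw [e7]
        have : 0 ≤ y * J := by linarith
        linarith) (by
        have e1 := mj (show ξ * u + y ≤ u + 500 * y by linarith)
        have e2 : (⌊ξ * u * J⌋₊ : ℝ) ≤ (⌊(u + 500 * y) * J⌋₊ : ℝ) := by linarith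
        exact_mod_cast e2) hks (by
        rw [how]
        have e0 : (s - 1) * (ow (fn ks) - w) = s * (ow (fn ks) - w) - (ow (fn ks) - w) := by
          ring
        have e1 := mj (show ξ * u ≤ (s - 1) * (ow (fn ks) - w) + s * φ + φ by
          rw [e0]
          linarith)
        have e7 : (s - 1) * ((ow (fn ks) - w) * J) = (s - 1) * (ow (fn ks) - w) * J := by ring
        rw [e7]
        linarith)
  have U0 : (0 : ℝ) ≤ 2 ^ (Cg * Y) := by positivity
  -- the heights of the frame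
  have hg1 : ∀ (l : ℕ) (ω : F.Ω) (i : ℕ), i < k →
      hgt F c (folN G (fun y => GN y l) (fb 0) (fn n) k l) ω i = hgt F c (frT G GN (fb 0) k) ω i := by
    intro l ω i hi
    unfold Pool.D2R.hgt folN frT
    rw [if_pos hi, if_pos hi]
  have hg2 : ∀ (l : ℕ) (ω : F.Ω), k ≤ l →
      hgt F c (folN G (fun y => GN y l) (fb 0) (fn n) k l) ω l = hgt F c (frT G GN (fb 0) k) ω l := by
    intro l ω hl
    unfold Pool.D2R.hgt folN frT
    rw [if_neg (by omega), if_neg (lt_irrefl _), if_neg (by omega)]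
  -- equal charts of the frame
  have hfr : ∀ {ω ν : F.Ω} {n' : ℕ}, chT F k f n' G GN (fb 0) fn ω = chT F k f n' G GN (fb 0) fn ν →
      (∀ t ≤ n', ∀ l ≤ k + f, G (fn t) (ptr F J ω) l = G (fn t) (ptr F J ν) l) ∧
      (∀ l < k, G (fb 0) (ptr F J ω) l = G (fb 0) (ptr F J ν) l) ∧
      ∀ l, k ≤ l → l ≤ k + f → GN (ptr F J ω) l = GN (ptr F J ν) l := by
    intro ω ν n' h
    have e1 := congrArg Prod.fst h
    have e2 := congrArg Prod.snd h
    refine ⟨chs_eq e1, fun l hl => ?_, fun l hl hl' => ?_⟩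
    · have e3 := congrFun e2 ⟨l, by omega⟩
      simpa [chT, frT, hl] using e3
    · have e3 := congrFun e2 ⟨l, by omega⟩
      simpa [chT, frT, not_lt.2 hl] using e3
  have hnr : ∀ {ω ν : F.Ω}, NrH F c (fun j : Fin k => (j : ℕ)) ⌊(u + 500 * y) * J⌋₊ (g₀ (fn 0))
      (frT G GN (fb 0) k) ω ν → ∀ l, ∀ j < k,
      |hgt F c (folN G (fun y => GN y l) (fb 0) (fn n) k l) ω j -
        hgt F c (folN G (fun y => GN y l) (fb 0) (fn n) k l) ν j| ≤
          2 ^ 2 / 2 ^ (g₀ (fn 0) j + ⌊(u + 500 * y) * J⌋₊) := by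
    intro ω ν h l j hj
    rw [hg1 l ω j hj, hg1 l ν j hj]
    exact h ⟨j, hj⟩
  refine ⟨⟨U0, fun ω hω v j => ?_, fun ω ν hω hν ht _ hc hh v j => ?_,
    fun ω ν hω hν ht _ hc hh v j => ?_, fun ω ν hω hν ht _ hc hh v => ?_⟩,
    fun ω hω l hl1 hl2 i hi => ?_⟩
  · have hv := v.2
    exact (key (k + v) (by omega) (by omega)).1 ω hω j (by omega) (fun h => absurd j.2 (by omega))
  · have hv := v.2
    obtain ⟨f1, f2, f3⟩ := hfr hc
    exact ((key (k + v) (by omega) (by omega)).2 ω ν hω hν ht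
      (f3 (k + v) (by omega) (by omega)) (hnr hh (k + v)) f2).1
      (fun t ht l hl => f1 t ht l (by omega)) j j.2
  · have hv := v.2
    obtain ⟨f1, f2, f3⟩ := hfr hc
    exact (((key (k + v) (by omega) (by omega)).2 ω ν hω hν ht
      (f3 (k + v) (by omega) (by omega)) (hnr hh (k + v)) f2).2
      (fun t ht l hl => f1 t ht l (by omega))).1 j j.2
  · have hv := v.2
    obtain ⟨f1, f2, f3⟩ := hfr hc
    have e1 := (((key (k + v) (by omega) (by omega)).2 ω ν hω hν ht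
      (f3 (k + v) (by omega) (by omega)) (hnr hh (k + v)) f2).2
      (fun t ht l hl => f1 t ht l (by omega))).2
    rw [hg2 _ ω (by omega), hg2 _ ν (by omega), Finset.sum_range] at e1
    have e2 : ∑ j : Fin k, ggT F c k G GN (fb 0) (fn n) (g₀ (fn 0)) (k + v) ω j *
        (2 ^ (g₀ (fn 0) j + ⌊(u + 500 * y) * J⌋₊) * (hgt F c (frT G GN (fb 0) k) ω j -
          hgt F c (frT G GN (fb 0) k) ν j)) =
        ∑ j : Fin k, gnh F c (k + v) (g₀ (fn 0)) (folN G (fun y => GN y (k + v)) (fb 0) (fn n) k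
          (k + v)) (G (fn n)) ω j * (2 ^ (g₀ (fn 0) j + ⌊(u + 500 * y) * J⌋₊) *
            (hgt F c (folN G (fun y => GN y (k + v)) (fb 0) (fn n) k (k + v)) ω j -
              hgt F c (folN G (fun y => GN y (k + v)) (fb 0) (fn n) k (k + v)) ν j)) :=
      Finset.sum_congr rfl fun j _ => by
        rw [hg1 _ ω j j.2, hg1 _ ν j j.2]
        rfl
    have e3 := mul_le_mul_of_nonneg_left e1 (show (0 : ℝ) ≤ 2 ^ ⌊ξ * u * J⌋₊ by positivity)
    rw [mul_div_cancel₀ _ (by positivity)] at e3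
    have e4 : ∀ p q : ℝ, (2 : ℝ) ^ ⌊ξ * u * J⌋₊ * p - 2 ^ ⌊ξ * u * J⌋₊ * q =
      2 ^ ⌊ξ * u * J⌋₊ * (p - q) := fun p q => by ring
    show |2 ^ ⌊ξ * u * J⌋₊ * _ - 2 ^ ⌊ξ * u * J⌋₊ * ∑ j : Fin k,
      ggT F c k G GN (fb 0) (fn n) (g₀ (fn 0)) (k + v) ω j * _| ≤ _
    rw [e2, e4, abs_mul, abs_of_nonneg (show (0 : ℝ) ≤ 2 ^ ⌊ξ * u * J⌋₊ by positivity)]
    exact e3
  · refine (key l hl1 hl2).1 ω hω i hi fun h t t' htt ht' l' hl' hl'' => ?_
    obtain ⟨r1, r2⟩ := rf t (htt.trans ht')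
    obtain ⟨r3, r4⟩ := rf t' ht'
    rw [hlv _ (hf t (htt.trans ht')) l' (by omega), hlv _ (hf t' ht') l' (by omega),
      hlv _ (hf t (htt.trans ht')) i (by omega), hlv _ (hf t' ht') i (by omega)]
    have e1 := Nn.stv h (by omega) (gf t (htt.trans ht')) (b1.trans r1) (r2.trans b7)
    have e2 := Nn.stv h (by omega) (gf t' ht') (b1.trans r3) (r4.trans b7)
    have e3 := Nn.stv (l := l') (by omega) (by omega) (gf t (htt.trans ht')) (b1.trans r1)
      (r2.trans b7)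
    have e4 := Nn.stv (l := l') (by omega) (by omega) (gf t' ht') (b1.trans r3) (r4.trans b7)
    have e5 := mj (show sn i (ow (fn t')) - sn i (ow (fn t)) ≤
      sn l' (ow (fn t')) - sn l' (ow (fn t)) + 4 * φ by linarith)
    linarith

/-- **The gradients of the targets on one event**, for every number of targets. -/
theorem t_grdT (f : ℕ) : GrdTStmt f := grdT_of (fun D D' r => Pool.GF64.gfr D D' r) f

end Pool.V0T
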